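import Pool.Agent.helper62.VD.SpecE2

set_option autoImplicit false

open MeasureTheory Filter Set Topology
open scoped ENNReal ContDiff InnerProductSpace

namespace Pool.Agent.VDE

open VD

noncomputable section

theorem SMS_inj {d : ℕ} (A : V d →L[ℝ] V d) (hA : ∀ u, u ≠ 0 → 0 < ⟪A u, u⟫_ℝ) : Function.Injective A := by
  intro u v huv
  by_contra hne
  have h1 : A (u - v) = 0 := by rw [map_sub, huv, sub_self]
  have h2 := hA (u - v) (sub_ne_zero.mpr hne)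
  rw [h1, inner_zero_left] at h2
  exact lt_irrefl _ h2

theorem SMS_inv {d : ℕ} (A : V d →L[ℝ] V d) (hA : ∀ u, u ≠ 0 → 0 < ⟪A u, u⟫_ℝ) (ξ : V d) : A (A.inverse ξ) = ξ := by
  have hinj : Function.Injective A.toLinearMap := SMS_inj A hA
  have hker : LinearMap.ker A.toLinearMap = ⊥ := LinearMap.ker_eq_bot.mpr hinj
  have hran : LinearMap.range A.toLinearMap = ⊤ := LinearMap.range_eq_top.mpr (LinearMap.injective_iff_surjective.mp hinj)
  have he : ((ContinuousLinearEquiv.ofBijective A hker hran : V d ≃L[ℝ] V d) : V d →L[ℝ] V d) = A := ContinuousLinearEquiv.coe_ofBijective A hker hran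
  have h1 : A.inverse = ((ContinuousLinearEquiv.ofBijective A hker hran).symm : V d →L[ℝ] V d) := by
    conv_lhs => rw [← he]
    exact ContinuousLinearMap.inverse_equiv _
  rw [h1]
  have h2 : (ContinuousLinearEquiv.ofBijective A hker hran) ((ContinuousLinearEquiv.ofBijective A hker hran).symm ξ) = ξ := ContinuousLinearEquiv.apply_symm_apply _ _
  exact h2

theorem SMS_nonneg {d : ℕ} (A : V d →L[ℝ] V d) (hA : ∀ u, u ≠ 0 → 0 < ⟪A u, u⟫_ℝ) (u : V d) : 0 ≤ ⟪A u, u⟫_ℝ := by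
  by_cases hu : u = 0
  · rw [hu, inner_zero_right]
  · exact (hA u hu).le

/-- comparison of the inverses -/
theorem SMS_cmp {d : ℕ} (A B : V d →L[ℝ] V d) (hA : ∀ u, u ≠ 0 → 0 < ⟪A u, u⟫_ℝ) (hB : ∀ u, u ≠ 0 → 0 < ⟪B u, u⟫_ℝ)
    (sA : ∀ u v, ⟪A u, v⟫_ℝ = ⟪u, A v⟫_ℝ) (l : ℝ) (hl : 0 < l) (hAB : ∀ u, l * ⟪A u, u⟫_ℝ ≤ ⟪B u, u⟫_ℝ) (ξ : V d) :
    l * ⟪B.inverse ξ, ξ⟫_ℝ ≤ ⟪A.inverse ξ, ξ⟫_ℝ := by
  have hv : B (B.inverse ξ) = ξ := SMS_inv B hB ξ
  have hw : A (A.inverse ξ) = ξ := SMS_inv A hA ξ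
  have h0 : 0 ≤ ⟪A (l • B.inverse ξ - A.inverse ξ), l • B.inverse ξ - A.inverse ξ⟫_ℝ := SMS_nonneg A hA _
  have h2 := hAB (B.inverse ξ)
  rw [hv] at h2
  have e1 : ⟪A (B.inverse ξ), A.inverse ξ⟫_ℝ = ⟪B.inverse ξ, ξ⟫_ℝ := by rw [sA, hw]
  have e2 : ⟪ξ, B.inverse ξ⟫_ℝ = ⟪B.inverse ξ, ξ⟫_ℝ := real_inner_comm _ _
  have e3 : ⟪ξ, A.inverse ξ⟫_ℝ = ⟪A.inverse ξ, ξ⟫_ℝ := real_inner_comm _ _
  have h1 : ⟪A (l • B.inverse ξ - A.inverse ξ), l • B.inverse ξ - A.inverse ξ⟫_ℝ =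
      l * (l * ⟪A (B.inverse ξ), B.inverse ξ⟫_ℝ) - 2 * l * ⟪B.inverse ξ, ξ⟫_ℝ + ⟪A.inverse ξ, ξ⟫_ℝ := by
    rw [map_sub, map_smul, hw, inner_sub_left, inner_sub_right, inner_sub_right, real_inner_smul_left, real_inner_smul_left,
      real_inner_smul_right, real_inner_smul_right, e1, e2, e3]
    ring
  rw [h1] at h0
  rw [e2] at h2
  have h3 : l * (l * ⟪A (B.inverse ξ), B.inverse ξ⟫_ℝ) ≤ l * ⟪B.inverse ξ, ξ⟫_ℝ := mul_le_mul_of_nonneg_left h2 hl.le
  linarith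

theorem SMS_det {d : ℕ} (A : V d →L[ℝ] V d) (hA : ∀ u, u ≠ 0 → 0 < ⟪A u, u⟫_ℝ) : 0 < A.det := by
  by_contra hcon
  push Not at hcon
  have hcont : Continuous fun t : ℝ => ((1 - t) • ContinuousLinearMap.id ℝ (V d) + t • A).det :=
    ContinuousLinearMap.continuous_det.comp (((continuous_const.sub continuous_id).smul continuous_const).add (continuous_id.smul continuous_const))
  have h0 : ((1 - (0 : ℝ)) • ContinuousLinearMap.id ℝ (V d) + (0 : ℝ) • A).det = 1 := by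
    have e : (1 - (0 : ℝ)) • ContinuousLinearMap.id ℝ (V d) + (0 : ℝ) • A = ContinuousLinearMap.id ℝ (V d) := by
      ext v i
      simp
    rw [e]
    exact LinearMap.det_id
  have h1 : ((1 - (1 : ℝ)) • ContinuousLinearMap.id ℝ (V d) + (1 : ℝ) • A).det = A.det := by
    have e : (1 - (1 : ℝ)) • ContinuousLinearMap.id ℝ (V d) + (1 : ℝ) • A = A := by
      ext v i
      simp
    rw [e]
  obtain ⟨t, ht, hft⟩ := intermediate_value_Icc' (zero_le_one' ℝ) hcont.continuousOn (show (0 : ℝ) ∈ Icc _ _ from by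
    constructor
    · show ((1 - (1 : ℝ)) • ContinuousLinearMap.id ℝ (V d) + (1 : ℝ) • A).det ≤ 0
      rw [h1]
      exact hcon
    · show 0 ≤ ((1 - (0 : ℝ)) • ContinuousLinearMap.id ℝ (V d) + (0 : ℝ) • A).det
      rw [h0]
      exact zero_le_one)
  have hpos : ∀ u, u ≠ 0 → 0 < ⟪((1 - t) • ContinuousLinearMap.id ℝ (V d) + t • A) u, u⟫_ℝ := by
    intro u hu
    have e : ⟪((1 - t) • ContinuousLinearMap.id ℝ (V d) + t • A) u, u⟫_ℝ = (1 - t) * ‖u‖ ^ 2 + t * ⟪A u, u⟫_ℝ := by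
      have e1 : ((1 - t) • ContinuousLinearMap.id ℝ (V d) + t • A) u = (1 - t) • u + t • A u := rfl
      rw [e1, inner_add_left, real_inner_smul_left, real_inner_smul_left, real_inner_self_eq_norm_sq]
    rw [e]
    have hu2 : 0 < ‖u‖ ^ 2 := by
      have := norm_pos_iff.mpr hu
      positivity
    have hau := hA u hu
    rcases eq_or_lt_of_le ht.1 with h | h
    · rw [← h]
      simpa using hu2
    · have h5 : 0 ≤ (1 - t) * ‖u‖ ^ 2 := mul_nonneg (by linarith [ht.2]) hu2.le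
      have h6 : 0 < t * ⟪A u, u⟫_ℝ := mul_pos h hau
      linarith
  have hinj := SMS_inj _ hpos
  have hlt := LinearMap.bot_lt_ker_of_det_eq_zero (show LinearMap.det ((1 - t) • ContinuousLinearMap.id ℝ (V d) + t • A).toLinearMap = 0 from hft)
  have hker : LinearMap.ker ((1 - t) • ContinuousLinearMap.id ℝ (V d) + t • A).toLinearMap = ⊥ := LinearMap.ker_eq_bot.mpr hinj
  rw [hker] at hlt
  exact lt_irrefl _ hlt

theorem SMS_c {d : ℕ} (G : V d → V d →L[ℝ] V d) (K : Set (V d)) (hG : IsMetric G) (hK : IsCompact K) :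
    ∃ c : ℝ, 0 < c ∧ ∀ x ∈ K, ∀ u, c * ‖u‖ ^ 2 ≤ ⟪G x u, u⟫_ℝ := by
  have key : ∃ c : ℝ, 0 < c ∧ ∀ x ∈ K, ∀ e : V d, ‖e‖ = 1 → c ≤ ⟪G x e, e⟫_ℝ := by
    have hf : Continuous fun q : V d × V d => ⟪G q.1 q.2, q.2⟫_ℝ :=
      ((hG.smooth.continuous.comp continuous_fst).clm_apply continuous_snd).inner continuous_snd
    have hcpt : IsCompact (K ×ˢ Metric.sphere (0 : V d) 1) := hK.prod (isCompact_sphere _ _)
    by_cases hne : (K ×ˢ Metric.sphere (0 : V d) 1).Nonempty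
    · obtain ⟨q, hq, hmin⟩ := hcpt.exists_isMinOn hne hf.continuousOn
      refine ⟨⟪G q.1 q.2, q.2⟫_ℝ, ?_, ?_⟩
      · apply hG.pos
        have h1 : ‖q.2‖ = 1 := mem_sphere_zero_iff_norm.mp hq.2
        intro h2
        rw [h2, norm_zero] at h1
        exact zero_ne_one h1
      · intro x hx e he
        exact hmin (show (x, e) ∈ K ×ˢ Metric.sphere (0 : V d) 1 from ⟨hx, mem_sphere_zero_iff_norm.mpr he⟩)
    · refine ⟨1, zero_lt_one, ?_⟩
      intro x hx e he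
      exact absurd ⟨(x, e), ⟨hx, mem_sphere_zero_iff_norm.mpr he⟩⟩ hne
  obtain ⟨c, hc, hce⟩ := key
  refine ⟨c, hc, ?_⟩
  intro x hx u
  by_cases hu : u = 0
  · rw [hu, norm_zero, inner_zero_right]
    simp
  · have hn : 0 < ‖u‖ := norm_pos_iff.mpr hu
    have h1 := hce x hx (‖u‖⁻¹ • u) (by rw [norm_smul, norm_inv, norm_norm, inv_mul_cancel₀ hn.ne'])
    rw [map_smul, real_inner_smul_left, real_inner_smul_right] at h1
    have h2 : c * ‖u‖ ^ 2 ≤ ‖u‖⁻¹ * (‖u‖⁻¹ * ⟪G x u, u⟫_ℝ) * ‖u‖ ^ 2 := mul_le_mul_of_nonneg_right h1 (by positivity)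
    have h3 : ‖u‖⁻¹ * (‖u‖⁻¹ * ⟪G x u, u⟫_ℝ) * ‖u‖ ^ 2 = ⟪G x u, u⟫_ℝ := by field_simp
    rw [h3] at h2
    exact h2

theorem SMS_dens {d : ℕ} (G : V d → V d →L[ℝ] V d) (K : Set (V d)) (hG : Continuous G) (hK : IsCompact K) (e : ℝ) (he : 0 < e) :
    ∃ s : ℝ, 0 < s ∧ ∀ x ∈ K, ∀ B : V d →L[ℝ] V d, ‖G x - B‖ ≤ s → |Real.sqrt B.det - Real.sqrt (G x).det| ≤ e := by
  have hc : IsCompact (Metric.cthickening 1 (G '' K)) := (hK.image hG).cthickening
  have hf : Continuous fun A : V d →L[ℝ] V d => Real.sqrt A.det := Real.continuous_sqrt.comp ContinuousLinearMap.continuous_det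
  have hu := hc.uniformContinuousOn_of_continuous hf.continuousOn
  rw [Metric.uniformContinuousOn_iff] at hu
  obtain ⟨δ, hδ, h⟩ := hu e he
  refine ⟨min 1 (δ / 2), lt_min zero_lt_one (half_pos hδ), ?_⟩
  intro x hx B hB
  have hd : dist B (G x) ≤ min 1 (δ / 2) := by
    rw [dist_comm, dist_eq_norm]
    exact hB
  have h1 : G x ∈ Metric.cthickening 1 (G '' K) := Metric.self_subset_cthickening _ (mem_image_of_mem G hx)
  have h2 : B ∈ Metric.cthickening 1 (G '' K) := Metric.mem_cthickening_of_dist_le B (G x) 1 _ (mem_image_of_mem G hx) (hd.trans (min_le_left _ _))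
  have h3 := h B h2 (G x) h1 (lt_of_le_of_lt (hd.trans (min_le_right _ _)) (by linarith))
  rw [Real.dist_eq] at h3
  exact h3.le

theorem SMS_real (D D' N N' e : ℝ) (hD : 0 < D) (hD' : 0 ≤ D') (hN : |N| ≤ D) (hN' : |N'| ≤ D') (hNN : |N' - N| ≤ e) (hDD : |D' - D| ≤ e) :
    |N' / D' - N / D| ≤ 2 * e / D := by
  have he : 0 ≤ e := (abs_nonneg _).trans hNN
  rcases eq_or_lt_of_le hD' with h | h
  · rw [← h, div_zero, zero_sub, abs_neg, abs_div, abs_of_pos hD, div_le_div_iff_of_pos_right hD]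
    rw [← h, zero_sub, abs_neg, abs_of_pos hD] at hDD
    linarith
  · have e1 : N' / D' - N / D = (N' / D') * ((D - D') / D) + (N' - N) / D := by
      field_simp
      ring
    rw [e1]
    have h1 : |N' / D'| ≤ 1 := by
      rw [abs_div, abs_of_pos h, div_le_one h]
      exact hN'
    have h2 : |(D - D') / D| ≤ e / D := by
      rw [abs_div, abs_of_pos hD, div_le_div_iff_of_pos_right hD, abs_sub_comm]
      exact hDD
    have h3 : |(N' - N) / D| ≤ e / D := by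
      rw [abs_div, abs_of_pos hD, div_le_div_iff_of_pos_right hD]
      exact hNN
    calc |(N' / D') * ((D - D') / D) + (N' - N) / D| ≤ |(N' / D') * ((D - D') / D)| + |(N' - N) / D| := abs_add_le _ _
      _ = |N' / D'| * |(D - D') / D| + |(N' - N) / D| := by rw [abs_mul]
      _ ≤ 1 * (e / D) + e / D := add_le_add (mul_le_mul h1 h2 (abs_nonneg _) zero_le_one) h3
      _ = 2 * e / D := by ring

theorem SMS_densc {d : ℕ} (G : V d → V d →L[ℝ] V d) (hG : IsMetric G) : Continuous (dens G) :=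
  Real.continuous_sqrt.comp (ContinuousLinearMap.continuous_det.comp hG.smooth.continuous)

theorem SMS_densp {d : ℕ} (G : V d → V d →L[ℝ] V d) (hG : IsMetric G) (x : V d) : 0 < dens G x :=
  Real.sqrt_pos.mpr (SMS_det (G x) (hG.pos x))

/-- the norms -/
theorem SMS_nrm {d : ℕ} (G G' : V d → V d →L[ℝ] V d) (hG : IsMetric G) (hG' : IsMetric G') (x : V d) (c s a η : ℝ) (hc : 0 < c)
    (hcu : ∀ u, c * ‖u‖ ^ 2 ≤ ⟪G x u, u⟫_ℝ) (hs : ‖G x - G' x‖ ≤ s) (hsa : s ≤ a * c) (ha0 : 0 < a) (ha1 : a ≤ 1 / 2) (haη : a ≤ η / 2) (ξ : V d) :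
    (1 - η) * nrm G ((x, ξ) : P d) ≤ nrm G' ((x, ξ) : P d) ∧ nrm G' ((x, ξ) : P d) ≤ (1 + η) * nrm G ((x, ξ) : P d) := by
  have hη : 0 < η := by linarith
  have hdiff : ∀ u, |⟪G x u, u⟫_ℝ - ⟪G' x u, u⟫_ℝ| ≤ a * ⟪G x u, u⟫_ℝ := by
    intro u
    have e1 : ⟪G x u, u⟫_ℝ - ⟪G' x u, u⟫_ℝ = ⟪(G x - G' x) u, u⟫_ℝ := by
      rw [_root_.sub_apply, inner_sub_left]
    rw [e1]
    calc |⟪(G x - G' x) u, u⟫_ℝ| ≤ ‖(G x - G' x) u‖ * ‖u‖ := abs_real_inner_le_norm _ _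
      _ ≤ (‖G x - G' x‖ * ‖u‖) * ‖u‖ := mul_le_mul_of_nonneg_right (ContinuousLinearMap.le_opNorm _ _) (norm_nonneg _)
      _ = ‖G x - G' x‖ * ‖u‖ ^ 2 := by ring
      _ ≤ (a * c) * ‖u‖ ^ 2 := mul_le_mul_of_nonneg_right (hs.trans hsa) (by positivity)
      _ = a * (c * ‖u‖ ^ 2) := by ring
      _ ≤ a * ⟪G x u, u⟫_ℝ := mul_le_mul_of_nonneg_left (hcu u) ha0.le
  have h1 := SMS_cmp (G x) (G' x) (hG.pos x) (hG'.pos x) (hG.symm x) (1 - a) (by linarith) (fun u => by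
    have := abs_le.mp (hdiff u)
    nlinarith [this.1, this.2]) ξ
  have h2 := SMS_cmp (G' x) (G x) (hG'.pos x) (hG.pos x) (hG'.symm x) (1 + a)⁻¹ (by positivity) (fun u => by
    have := abs_le.mp (hdiff u)
    have h3 : ⟪G' x u, u⟫_ℝ ≤ (1 + a) * ⟪G x u, u⟫_ℝ := by nlinarith [this.1, this.2]
    rw [inv_mul_le_iff₀ (by linarith)]
    exact h3) ξ
  rw [inv_mul_le_iff₀ (by linarith)] at h2
  have hq : 0 ≤ ⟪(G x).inverse ξ, ξ⟫_ℝ := by
    have h4 := SMS_nonneg (G x) (hG.pos x) ((G x).inverse ξ)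
    rw [SMS_inv (G x) (hG.pos x) ξ, real_inner_comm] at h4
    exact h4
  have hq' : 0 ≤ ⟪(G' x).inverse ξ, ξ⟫_ℝ := by
    have h4 := SMS_nonneg (G' x) (hG'.pos x) ((G' x).inverse ξ)
    rw [SMS_inv (G' x) (hG'.pos x) ξ, real_inner_comm] at h4
    exact h4
  have en : nrm G ((x, ξ) : P d) = Real.sqrt ⟪(G x).inverse ξ, ξ⟫_ℝ := rfl
  have en' : nrm G' ((x, ξ) : P d) = Real.sqrt ⟪(G' x).inverse ξ, ξ⟫_ℝ := rfl
  rw [en, en']
  constructor
  · by_cases h5 : 1 ≤ η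
    · have h6 : (1 - η) * Real.sqrt ⟪(G x).inverse ξ, ξ⟫_ℝ ≤ 0 := mul_nonpos_of_nonpos_of_nonneg (by linarith) (Real.sqrt_nonneg _)
      exact h6.trans (Real.sqrt_nonneg _)
    · push Not at h5
      apply Real.le_sqrt_of_sq_le
      rw [mul_pow, Real.sq_sqrt hq]
      have h7 : (1 - η) ^ 2 * (1 + a) ≤ 1 := by
        have q1 : (1 - η) ^ 2 ≤ 1 - η := by nlinarith
        have q2 : (1 - η) * (1 + a) ≤ (1 - η) * (1 + η) := mul_le_mul_of_nonneg_left (by linarith) (by linarith)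
        have q3 : (1 - η) ^ 2 * (1 + a) ≤ (1 - η) * (1 + a) := mul_le_mul_of_nonneg_right q1 (by linarith)
        nlinarith [sq_nonneg η]
      calc (1 - η) ^ 2 * ⟪(G x).inverse ξ, ξ⟫_ℝ ≤ (1 - η) ^ 2 * ((1 + a) * ⟪(G' x).inverse ξ, ξ⟫_ℝ) := mul_le_mul_of_nonneg_left h2 (by positivity)
        _ = (1 - η) ^ 2 * (1 + a) * ⟪(G' x).inverse ξ, ξ⟫_ℝ := by ring
        _ ≤ 1 * ⟪(G' x).inverse ξ, ξ⟫_ℝ := mul_le_mul_of_nonneg_right h7 hq'
        _ = ⟪(G' x).inverse ξ, ξ⟫_ℝ := one_mul _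
  · rw [Real.sqrt_le_left (by positivity), mul_pow, Real.sq_sqrt hq]
    have h8 : 1 ≤ (1 + η) ^ 2 * (1 - a) := by
      have q1 : 1 + 2 * η ≤ (1 + η) ^ 2 := by nlinarith [sq_nonneg η]
      have q2 : (1 + 2 * η) * (1 - a) ≤ (1 + η) ^ 2 * (1 - a) := mul_le_mul_of_nonneg_right q1 (by linarith)
      have q3 : η * a ≤ η * (1 / 2) := mul_le_mul_of_nonneg_left ha1 hη.le
      nlinarith
    have h9 : (1 - a) * ⟪(G' x).inverse ξ, ξ⟫_ℝ ≤ (1 - a) * ((1 + η) ^ 2 * ⟪(G x).inverse ξ, ξ⟫_ℝ) := by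
      calc (1 - a) * ⟪(G' x).inverse ξ, ξ⟫_ℝ ≤ ⟪(G x).inverse ξ, ξ⟫_ℝ := h1
        _ = 1 * ⟪(G x).inverse ξ, ξ⟫_ℝ := (one_mul _).symm
        _ ≤ ((1 + η) ^ 2 * (1 - a)) * ⟪(G x).inverse ξ, ξ⟫_ℝ := mul_le_mul_of_nonneg_right h8 hq
        _ = (1 - a) * ((1 + η) ^ 2 * ⟪(G x).inverse ξ, ξ⟫_ℝ) := by ring
    exact le_of_mul_le_mul_left h9 (by linarith)

/-- the means -/
theorem SMS_mean {d : ℕ} (G G' : V d → V d →L[ℝ] V d) (hG : IsMetric G) (hG' : IsMetric G') (K F0 : Set (V d)) (hK : IsCompact K) (h : V d → ℝ) (e : ℝ)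
    (he : 0 ≤ e) (hde : ∀ x ∈ K, |dens G' x - dens G x| ≤ e) (hF : MeasurableSet F0) (hFK : F0 ⊆ K) (hF0 : 0 < volume F0) (hh : Continuous h)
    (hb : ∀ x, |h x| ≤ 1) : |mnV F0 G' h - mnV F0 G h| ≤ 2 * (e * (volume K).toReal) / ∫ x in F0, dens G x := by
  have hKf : volume K < ⊤ := hK.measure_lt_top
  have hFf : volume F0 < ⊤ := lt_of_le_of_lt (measure_mono hFK) hKf
  have i1 : IntegrableOn (dens G) F0 := ((SMS_densc G hG).continuousOn.integrableOn_compact hK).mono_set hFK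
  have i1' : IntegrableOn (dens G') F0 := ((SMS_densc G' hG').continuousOn.integrableOn_compact hK).mono_set hFK
  have i2 : IntegrableOn (fun x => h x * dens G x) F0 := ((hh.mul (SMS_densc G hG)).continuousOn.integrableOn_compact hK).mono_set hFK
  have i2' : IntegrableOn (fun x => h x * dens G' x) F0 := ((hh.mul (SMS_densc G' hG')).continuousOn.integrableOn_compact hK).mono_set hFK
  have hvol : (volume F0).toReal ≤ (volume K).toReal := ENNReal.toReal_mono hKf.ne (measure_mono hFK)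
  have hbnd : ∀ f : V d → ℝ, (∀ x ∈ F0, ‖f x‖ ≤ e) → |∫ x in F0, f x| ≤ e * (volume K).toReal := by
    intro f hf
    have h1 : ‖∫ x in F0, f x‖ ≤ e * (volume F0).toReal := by
      have := norm_setIntegral_le_of_norm_le_const hFf hf
      exact this
    rw [Real.norm_eq_abs] at h1
    exact h1.trans (mul_le_mul_of_nonneg_left hvol he)
  have habs : ∀ G1 : V d → V d →L[ℝ] V d, IsMetric G1 → IntegrableOn (dens G1) F0 → |∫ x in F0, h x * dens G1 x| ≤ ∫ x in F0, dens G1 x := by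
    intro G1 hG1 hi
    have h1 : ‖∫ x in F0, h x * dens G1 x‖ ≤ ∫ x in F0, dens G1 x := by
      apply norm_integral_le_of_norm_le hi
      refine Eventually.of_forall fun x => ?_
      rw [Real.norm_eq_abs, abs_mul, abs_of_pos (SMS_densp G1 hG1 x)]
      calc |h x| * dens G1 x ≤ 1 * dens G1 x := mul_le_mul_of_nonneg_right (hb x) (SMS_densp G1 hG1 x).le
        _ = dens G1 x := one_mul _
    rw [Real.norm_eq_abs] at h1
    exact h1
  have hDpos : 0 < ∫ x in F0, dens G x := by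
    rw [setIntegral_pos_iff_support_of_nonneg_ae (Eventually.of_forall fun x => (SMS_densp G hG x).le) i1]
    have : Function.support (dens G) ∩ F0 = F0 := by
      apply inter_eq_right.mpr
      intro x _
      exact (SMS_densp G hG x).ne'
    rw [this]
    exact hF0
  have hDnn : 0 ≤ ∫ x in F0, dens G' x := integral_nonneg fun x => (SMS_densp G' hG' x).le
  have hNN : |(∫ x in F0, h x * dens G' x) - ∫ x in F0, h x * dens G x| ≤ e * (volume K).toReal := by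
    rw [← integral_sub i2' i2]
    apply hbnd
    intro x hx
    rw [← mul_sub, Real.norm_eq_abs, abs_mul]
    calc |h x| * |dens G' x - dens G x| ≤ 1 * |dens G' x - dens G x| := mul_le_mul_of_nonneg_right (hb x) (abs_nonneg _)
      _ = |dens G' x - dens G x| := one_mul _
      _ ≤ e := hde x (hFK hx)
  have hDD : |(∫ x in F0, dens G' x) - ∫ x in F0, dens G x| ≤ e * (volume K).toReal := by
    rw [← integral_sub i1' i1]
    apply hbnd
    intro x hx
    rw [Real.norm_eq_abs]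
    exact hde x (hFK hx)
  exact SMS_real _ _ _ _ _ hDpos hDnn (habs G hG i1) (habs G' hG' i1') hNN hDD

theorem SMS_proof (h1 : SNM_stmt) : SMS_stmt := by
  intro d G K η hG hK hη
  obtain ⟨c, hc, hcu⟩ := SMS_c G K hG hK
  have hV : 0 ≤ (volume K).toReal := ENNReal.toReal_nonneg
  have hepos : 0 < η / (2 * ((volume K).toReal + 1)) := by positivity
  obtain ⟨s1, hs1, hd⟩ := SMS_dens G K hG.smooth.continuous hK (η / (2 * ((volume K).toReal + 1))) hepos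
  have hapos : 0 < min (1 / 2) (η / 2) := lt_min (by norm_num) (by linarith)
  refine ⟨min s1 (min (1 / 2) (η / 2) * c), lt_min hs1 (mul_pos hapos hc), ?_⟩
  intro G' hG' hs
  constructor
  · intro p hp
    exact SMS_nrm G G' hG hG' p.1 c _ (min (1 / 2) (η / 2)) η hc (hcu p.1 hp) (hs p.1 hp) (min_le_right _ _) hapos (min_le_left _ _) (min_le_right _ _) p.2
  · intro F0 h hF hFK hF0 hh hb
    have h2 := SMS_mean G G' hG hG' K F0 hK h _ hepos.le (fun x hx => hd x hx (G' x) ((hs x hx).trans (min_le_left _ _))) hF hFK hF0 hh hb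
    refine h2.trans ?_
    have hD : 0 ≤ ∫ x in F0, dens G x := integral_nonneg fun x => (SMS_densp G hG x).le
    have h3 : 2 * (η / (2 * ((volume K).toReal + 1)) * (volume K).toReal) ≤ η := by
      have e1 : 2 * (η / (2 * ((volume K).toReal + 1)) * (volume K).toReal) = η * ((volume K).toReal / ((volume K).toReal + 1)) := by
        field_simp
      rw [e1]
      have h4 : (volume K).toReal / ((volume K).toReal + 1) ≤ 1 := by
        rw [div_le_one (by positivity)]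
        linarith
      calc η * ((volume K).toReal / ((volume K).toReal + 1)) ≤ η * 1 := mul_le_mul_of_nonneg_left h4 hη.le
        _ = η := mul_one _
    rw [div_eq_mul_inv]
    calc 2 * (η / (2 * ((volume K).toReal + 1)) * (volume K).toReal) * (∫ x in F0, dens G x)⁻¹ ≤ η * (∫ x in F0, dens G x)⁻¹ :=
        mul_le_mul_of_nonneg_right h3 (inv_nonneg.mpr hD)
      _ ≤ η * (1 + (∫ x in F0, dens G x)⁻¹) := mul_le_mul_of_nonneg_left (by linarith) hη.le

end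

end Pool.Agent.VDE
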